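import Pool.Agent.H240.GU.Def6

/-!
# EV-4: crossing the closed geodesic, with a chart of the collar

Adapted from `cross2` of `Pool/Agent/H240/CG/ErgB.lean` (helper307).
-/

set_option autoImplicit false
set_option linter.all false

open Set Filter Topology MeasureTheory
open scoped ContDiff

noncomputable section

namespace Pool.Agent.H122.EV

open Pool.Agent.Y262.EG Pool.Agent.Y262.EX Pool.Agent.H240.SG Pool.Agent.H240.CG
open Pool.Agent.H240.GU Pool.Agent.H240.GV Pool.Agent.H240.EV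

theorem stCross3 (htr : StTrX) : StCross3 := by
  intro M P _ _ _ _ Ω φ pr q Fl Γ ℓ L δ δ' κ C x0 g hUT hG hC f hf a ha z hz w hw hz' hw'
  have hu : StUniq := tUniq
  have hδ' : 0 < δ' := hC.posδ.trans hC.ltδ
  have hx0p := hC.x0p
  have hx0L := hC.x0L
  -- the curvature is negative outside of the closed geodesic
  have hneg : ∀ z ∈ Stp L δ', z.re ≠ x0 → curv φ (Γ z) < 0 := by
    intro z hz hz'
    refine lt_of_le_of_ne (hC.neg (Γ z) (hC.maps z hz)) ?_
    intro h0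
    obtain ⟨w, hw0, hpw⟩ := hC.zero (Γ z) (hC.maps z hz) h0
    have hwS : w ∈ Stp L δ' := ⟨by rw [hw0]; linarith, by rw [hw0]; linarith⟩
    obtain ⟨n, hn⟩ := hC.inj z hz w hwS hpw.symm
    have hre : w.re = z.re := by rw [hn]; simp
    exact hz' (by rw [← hre, hw0])
  refine ⟨hneg z hz hz', ?_⟩
  -- the function is locally constant
  have hStpo : IsOpen (Stp L δ') := (isOpen_lt continuous_const Complex.continuous_re).inter
    (isOpen_lt Complex.continuous_re continuous_const)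
  have hloc : ∀ z ∈ Stp L δ', z.re ≠ x0 → ∀ᶠ y in 𝓝 z, a (pr (Γ y)) = a (pr (Γ z)) := by
    intro z hz hz'
    obtain ⟨r, hr, -, h2, -⟩ := ha (Γ z, 0) (hC.maps z hz) (hneg z hz hz')
    have hΓc : ContinuousAt Γ z := (hC.hol.continuousOn).continuousAt (hStpo.mem_nhds hz)
    filter_upwards [hΓc (Metric.ball_mem_nhds (Γ z) hr)] with y hy
    refine (h2 (Γ y, 0) ?_).2
    rw [Metric.mem_ball, Prod.dist_eq]
    show max (dist (Γ y) (Γ z)) (dist (0 : ℝ) 0) < r
    rw [dist_self]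
    exact max_lt hy hr
  have hcon : ∀ R : Set ℂ, IsOpen R → Convex ℝ R → (∀ z ∈ R, z ∈ Stp L δ' ∧ z.re ≠ x0) →
      ∀ z ∈ R, ∀ w ∈ R, a (pr (Γ z)) = a (pr (Γ w)) := by
    intro R hRo hRc hR z hz w hw
    have hd : ∀ y ∈ R, HasFDerivAt (fun y => a (pr (Γ y))) (0 : ℂ →L[ℝ] ℝ) y := by
      intro y hy
      have h1 := hloc y (hR y hy).1 (hR y hy).2
      exact (hasFDerivAt_const (a (pr (Γ y))) y).congr_of_eventuallyEq h1
    exact hRo.is_const_of_fderiv_eq_zero hRc.isPreconnected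
      (fun y hy => (hd y hy).differentiableAt.differentiableWithinAt)
      (fun y hy => (hd y hy).fderiv) hz hw
  set RL : Set ℂ := {z | -δ' < z.re} ∩ {z | z.re < x0} with hRL
  set RR : Set ℂ := {z | x0 < z.re} ∩ {z | z.re < L + δ'} with hRR
  have hRLo : IsOpen RL := (isOpen_lt continuous_const Complex.continuous_re).inter
    (isOpen_lt Complex.continuous_re continuous_const)
  have hRRo : IsOpen RR := (isOpen_lt continuous_const Complex.continuous_re).inter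
    (isOpen_lt Complex.continuous_re continuous_const)
  have hRLc : Convex ℝ RL := (convex_halfSpace_re_gt _).inter (convex_halfSpace_re_lt _)
  have hRRc : Convex ℝ RR := (convex_halfSpace_re_gt _).inter (convex_halfSpace_re_lt _)
  have hRLs : ∀ z ∈ RL, z ∈ Stp L δ' ∧ z.re ≠ x0 := by
    rintro z ⟨h1, h2⟩
    have h2' : z.re < x0 := h2
    exact ⟨⟨h1, by linarith [hC.posL]⟩, h2'.ne⟩
  have hRRs : ∀ z ∈ RR, z ∈ Stp L δ' ∧ z.re ≠ x0 := by
    rintro z ⟨h1, h2⟩
    have h1' : x0 < z.re := h1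
    exact ⟨⟨by linarith [hC.posL], h2⟩, h1'.ne'⟩
  have hLc := hcon RL hRLo hRLc hRLs
  have hRc := hcon RR hRRo hRRc hRRs
  -- the crossing orbit
  have hψ : ContDiffOn ℝ ∞ (fun z : ℂ => g z.re) (Stp L δ') :=
    hC.gs.comp Complex.reCLM.contDiff.contDiffOn (fun z hz => ⟨hz.1, hz.2⟩)
  obtain ⟨b, I, t1, hIo, hIp, h0I, h1I, hb, hb0, hb1⟩ :=
    Pool.Agent.Y115.EG.solution (Ω := Stp L δ') (φ := fun z : ℂ => g z.re) hStpo hψ
      (Set.Subset.refl _) (fun _ _ => rfl) hC.posL hδ'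
  have htr1 := (htr Ω φ Γ ℓ (Stp L δ') (fun z : ℂ => g z.re) hUT.opn hStpo hUT.smooth hC.hol
    hC.maps hC.lhol hC.lexp hC.rot).1
  obtain ⟨hu1, hu2⟩ := hu Ω φ hUT.opn hUT.smooth
  set zL : ℂ := ((-(δ' / 3) : ℝ) : ℂ) with hzL
  set zR : ℂ := ((L + δ' / 3 : ℝ) : ℂ) with hzR
  have hzLm : zL ∈ RL := by
    refine ⟨?_, ?_⟩
    · show -δ' < zL.re
      rw [hzL, Complex.ofReal_re]; linarith
    · show zL.re < x0
      rw [hzL, Complex.ofReal_re]; linarith
  have hzRm : zR ∈ RR := by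
    refine ⟨?_, ?_⟩
    · show x0 < zR.re
      rw [hzR, Complex.ofReal_re]; linarith
    · show zR.re < L + δ'
      rw [hzR, Complex.ofReal_re]; linarith
  obtain ⟨pL, hpL⟩ : ∃ pL : Y, pL = Tx Γ ℓ (zL, 0) := ⟨_, rfl⟩
  obtain ⟨pR, hpR⟩ : ∃ pR : Y, pR = Tx Γ ℓ (zR, 0) := ⟨_, rfl⟩
  have hpL1 : pL.1 = Γ zL := by rw [hpL]; rfl
  have hpR1 : pR.1 = Γ zR := by rw [hpR]; rfl
  have hp0 : pL ∈ YO Ω := by
    show pL.1 ∈ Ω
    rw [hpL1]
    exact hC.maps _ (hRLs _ hzLm).1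
  have hp1 : pR ∈ YO Ω := by
    show pR.1 ∈ Ω
    rw [hpR1]
    exact hC.maps _ (hRRs _ hzRm).1
  have hcrossing : Fl t1 pL = pR := by
    have h := hu1 (fun t => Fl t pL) (fun t => Tx Γ ℓ (b t)) I hIo hIp
      (fun t ht => ⟨hG.maps t _ hp0, hC.maps _ (hb t ht).1⟩)
      (fun t ht => ⟨hG.ode t _ hp0, htr1 b t (hb t ht).1 (hb t ht).2⟩) 0 h0I
      (by
        show Fl 0 pL = Tx Γ ℓ (b 0)
        rw [hb0, hG.zero _ hp0, hpL]) t1 h1I
    have h' : Fl t1 pL = Tx Γ ℓ (b t1) := h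
    rw [hb1, ← hpR] at h'
    exact h'
  have hback : ∀ p ∈ YO Ω, Fl (-t1) (Fl t1 p) = p := by
    intro p hp
    rw [← hu2 Fl hG (-t1) t1 p hp, neg_add_cancel]
    exact hG.zero p hp
  -- smoothness of the time maps
  have hYO : IsOpen (YO Ω) := hUT.opn.preimage continuous_fst
  have hsm : ∀ t, ContDiffOn ℝ ∞ (Fl t) (YO Ω) := by
    intro t
    have h1 : ContDiffOn ℝ ∞ (fun p : Y => ((t, p) : ℝ × Y)) (YO Ω) :=
      (contDiff_const.prodMk contDiff_id).contDiffOn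
    exact hG.smooth.comp h1 (fun p hp => hp)
  have hcr : a (pr (Γ zL)) = a (pr (Γ zR)) := by
    obtain ⟨r0, hr0, hb0', -, h0⟩ := ha pL hp0
      (by rw [hpL1]; exact hneg zL (hRLs _ hzLm).1 (hRLs _ hzLm).2)
    obtain ⟨r1, hr1, hb1', -, h1⟩ := ha pR hp1
      (by rw [hpR1]; exact hneg zR (hRRs _ hzRm).1 (hRRs _ hzRm).2)
    rw [hpL1] at h0
    rw [hpR1] at h1
    rw [ae_restrict_iff' Metric.isOpen_ball.measurableSet, ae_iff] at h0 h1
    set N0 : Set Y := {p | ¬(p ∈ Metric.ball pL r0 → f (q p) = a (pr (Γ zL)))} with hN0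
    set N1 : Set Y := {p | ¬(p ∈ Metric.ball pR r1 → f (q p) = a (pr (Γ zR)))} with hN1
    have hN1s : N1 ⊆ YO Ω := by
      intro p hp
      rw [hN1, Set.mem_ofPred_eq, Classical.not_imp] at hp
      exact hb1' hp.1
    have hH : (volume : Measure Y).IsAddHaarMeasure := by
      show (volume : Measure (ℂ × ℝ)).IsAddHaarMeasure
      rw [Measure.volume_eq_prod]
      infer_instance
    have himg : volume (Fl (-t1) '' N1) = 0 :=
      addHaar_image_eq_zero_of_differentiableOn_of_addHaar_eq_zero volume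
        (((hsm (-t1)).differentiableOn (by simp)).mono hN1s) h1
    have hU : Metric.ball pL r0 ∩ Fl t1 ⁻¹' (Metric.ball pR r1) ∈
        𝓝 pL := by
      refine inter_mem (Metric.ball_mem_nhds _ hr0) ?_
      have hc : ContinuousAt (Fl t1) pL :=
        ((hsm t1).continuousOn).continuousAt (hYO.mem_nhds hp0)
      refine hc.preimage_mem_nhds ?_
      rw [hcrossing]
      exact Metric.ball_mem_nhds _ hr1
    have hpos : 0 < volume (Metric.ball pL r0 ∩
        Fl t1 ⁻¹' (Metric.ball pR r1)) :=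
      Measure.measure_pos_of_mem_nhds volume hU
    have hnn : ∃ p ∈ Metric.ball pL r0 ∩ Fl t1 ⁻¹' (Metric.ball pR r1),
        p ∉ N0 ∪ Fl (-t1) '' N1 := by
      by_contra hcon
      push Not at hcon
      have hle : volume (Metric.ball pL r0 ∩
          Fl t1 ⁻¹' (Metric.ball pR r1)) ≤ volume (N0 ∪ Fl (-t1) '' N1) :=
        measure_mono hcon
      have : volume (N0 ∪ Fl (-t1) '' N1) = 0 := measure_union_null h0 himg
      rw [this] at hle
      exact absurd hpos (not_lt.2 hle)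
    obtain ⟨p, ⟨hpa, hpb⟩, hpn⟩ := hnn
    have hpY : p ∈ YO Ω := hb0' hpa
    have e0 : f (q p) = a (pr (Γ zL)) := by
      by_contra hne
      refine hpn (Or.inl ?_)
      rw [hN0, Set.mem_ofPred_eq, Classical.not_imp]
      exact ⟨hpa, hne⟩
    have e1 : f (q (Fl t1 p)) = a (pr (Γ zR)) := by
      by_contra hne
      refine hpn (Or.inr ⟨Fl t1 p, ?_, hback p hpY⟩)
      rw [hN1, Set.mem_ofPred_eq, Classical.not_imp]
      exact ⟨hpb, hne⟩
    rw [← e0, ← e1]
    exact (hf t1 p hpY).symm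
  -- conclusion
  have hside : ∀ z ∈ Stp L δ', z.re ≠ x0 → a (pr (Γ z)) = a (pr (Γ zL)) := by
    intro z hz hz'
    rcases lt_or_gt_of_ne hz' with h | h
    · exact hLc z ⟨hz.1, h⟩ zL hzLm
    · rw [hcr]
      exact hRc z ⟨h, hz.2⟩ zR hzRm
  rw [hside z hz hz', hside w hw hw']

end Pool.Agent.H122.EV
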